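import Pool.Agent.X102.BS9

/-! No isometry defined on a non-reflexive real Banach space has the Bhatia–Šemrl property, and no
isometry has it whose domain has, on some infinite-dimensional subspace, a bounded compact
approximation property. -/

namespace Pool.Agent.Results.MP_43cf21_an.NonreflexiveOrBCAP

open Pool.Agent.X102.BSP Filter Topology

/-- `BJ u v` is Birkhoff–James orthogonality and `BhatiaSemrl T` the Bhatia–Šemrl property
(both in `Pool.Agent.X102.BSP`).  Let `T : X → Y` be an isometry of real Banach spaces.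

(0) If `X` is not reflexive (the inclusion into the bidual is not surjective), then `T` does not
have the Bhatia–Šemrl property, whatever `Y` is.
(1) If `Z` is an infinite-dimensional subspace of `X` and for some `M`, every finite `s ⊆ Z` and
`ε > 0` there is a compact operator `K` on `X` with `‖K‖ ≤ M` and `‖K z - z‖ ≤ ε` on `s`, then `T`
does not have the Bhatia–Šemrl property, whatever `Y` is (`Z = X`: bounded compact approximation
property of `X`).
(2) If `Z` is an infinite-dimensional subspace of `X`, `P : X → Y` is bounded, `P = T` on `Z`, and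
`P` is the pointwise limit of a sequence of compact operators, then `T` does not have the
Bhatia–Šemrl property.
(3) In particular this holds when `X` is infinite-dimensional and there are compact operators
`L n` on `Y` with `L n y → y` for all `y` (`X` otherwise arbitrary). -/
theorem result {X Y : Type*} [NormedAddCommGroup X] [NormedSpace ℝ X] [CompleteSpace X]
    [NormedAddCommGroup Y] [NormedSpace ℝ Y] [CompleteSpace Y]
    (T : X →L[ℝ] Y) (hT : ∀ x, ‖T x‖ = ‖x‖) :
    (¬ Function.Surjective (NormedSpace.inclusionInDoubleDual ℝ X) → ¬ BhatiaSemrl T) ∧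
    (∀ Z : Submodule ℝ X, ¬ FiniteDimensional ℝ Z → ∀ M : ℝ,
        (∀ s : Finset X, (∀ z ∈ s, z ∈ Z) → ∀ ε > 0, ∃ K : X →L[ℝ] X,
          IsCompactOperator K ∧ ‖K‖ ≤ M ∧ ∀ z ∈ s, ‖K z - z‖ ≤ ε) → ¬ BhatiaSemrl T) ∧
    (∀ (Z : Submodule ℝ X) (P : X →L[ℝ] Y) (K : ℕ → X →L[ℝ] Y),
        ¬ FiniteDimensional ℝ Z → (∀ z ∈ Z, P z = T z) → (∀ n, IsCompactOperator (K n)) →
        (∀ x, Tendsto (fun n => K n x) atTop (𝓝 (P x))) → ¬ BhatiaSemrl T) ∧
    (¬ FiniteDimensional ℝ X → ∀ L : ℕ → Y →L[ℝ] Y, (∀ n, IsCompactOperator (L n)) →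
        (∀ y, Tendsto (fun n => L n y) atTop (𝓝 y)) → ¬ BhatiaSemrl T) := by
  have h1 : ∀ (Z : Submodule ℝ X) (P : X →L[ℝ] Y) (K : ℕ → X →L[ℝ] Y),
        ¬ FiniteDimensional ℝ Z → (∀ z ∈ Z, P z = T z) → (∀ n, IsCompactOperator (K n)) →
        (∀ x, Tendsto (fun n => K n x) atTop (𝓝 (P x))) → ¬ BhatiaSemrl T :=
    fun Z P K hZ hP hK hlim => approx T hT Z hZ P hP K hK hlim
  have htop : ¬ FiniteDimensional ℝ X → ¬ FiniteDimensional ℝ (⊤ : Submodule ℝ X) := by
    intro h h'
    exact h (Module.Finite.equiv (Submodule.topEquiv (R := ℝ) (M := X)))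
  refine ⟨fun hX => nonreflexive T hT hX, fun Z hZ M hK => ?_, h1, ?_⟩
  · exact Pool.Agent.X102.BSQ.bcap T hT Z hZ M hK
  · intro hX L hL hlim
    refine h1 ⊤ T (fun n => (L n).comp T) (htop hX) (fun _ _ => rfl)
      (fun n => (hL n).comp_clm T) (fun x => hlim (T x))

end Pool.Agent.Results.MP_43cf21_an.NonreflexiveOrBCAP
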